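import Pool.Agent.helper69.AD.GS4
import Pool.Agent.helper30.AG.GM1

/-!
Module CLH of the project ag (helper81): axes of elements of the stabiliser of a plaque.
-/

open scoped MatrixGroups LinearAlgebra.Projectivization
open Matrix UpperHalfPlane

namespace AdSBend

theorem CLH_rep (t : ℝ) : ∃ a : ℝ, a ≠ 0 ∧ (bPt t).rep 0 = a * t ∧ (bPt t).rep 1 = a := by
  obtain ⟨a, ha⟩ := Projectivization.exists_smul_eq_mk_rep ℝ (![t, 1] : Fin 2 → ℝ)
    (by intro h; simpa using congrFun h 1)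
  refine ⟨a, a.ne_zero, ?_, ?_⟩
  · have := congrFun ha 0
    unfold bPt
    rw [← this]
    simp [Units.smul_def]
  · have := congrFun ha 1
    unfold bPt
    rw [← this]
    simp [Units.smul_def]

theorem CLH_side (z : ℍ) (s u : ℝ) (h : 0 < ((s - z.re) * (u - z.re) + z.im ^ 2) * (s - u)) :
    0 < side z (bPt s) (bPt u) := by
  obtain ⟨a, ha, h0, h1⟩ := CLH_rep s
  obtain ⟨b, hb, k0, k1⟩ := CLH_rep u
  unfold side dt
  rw [h0, h1, k0, k1]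
  have : ((a * s - z.re * a) * (b * u - z.re * b) + z.im ^ 2 * (a * b)) *
      (a * s * b - a * (b * u)) =
      (a * b) ^ 2 * (((s - z.re) * (u - z.re) + z.im ^ 2) * (s - u)) := by ring
  rw [this]
  have hab : 0 < (a * b) ^ 2 := by positivity
  exact mul_pos hab h

/-- large translations -/
theorem CLH_large (a b s u t : ℝ) (hb : 0 < b) (ht : 0 < t) :
    ∃ n : ℕ, 0 < (s - Real.exp (n * t) * a) * (u - Real.exp (n * t) * a) +
      (Real.exp (n * t) * b) ^ 2 := by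
  set c : ℝ := a ^ 2 + b ^ 2 with hc
  have hc0 : 0 < c := by positivity
  set M : ℝ := (|a * (s + u)| + |s * u| + 1) / c + 1 with hM
  obtain ⟨n, hn⟩ := exists_nat_gt (M / t)
  refine ⟨n, ?_⟩
  have h1 : M < n * t := by rwa [div_lt_iff₀ ht] at hn
  have h2 : M ≤ Real.exp (n * t) := by linarith [Real.add_one_le_exp (n * t)]
  set E : ℝ := Real.exp (n * t) with hE
  have hE0 : 0 < E := Real.exp_pos _
  have hM1 : 1 ≤ M := by
    have : 0 ≤ (|a * (s + u)| + |s * u| + 1) / c := by positivity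
    linarith
  have hE1 : 1 ≤ E := hM1.trans h2
  have h3 : |a * (s + u)| + |s * u| + 1 ≤ E * c := by
    have : (|a * (s + u)| + |s * u| + 1) / c ≤ E := by linarith
    rwa [div_le_iff₀ hc0] at this
  have h4 : E * (|a * (s + u)| + |s * u| + 1) ≤ E * (E * c) :=
    mul_le_mul_of_nonneg_left h3 hE0.le
  have h5 : E * (a * (s + u)) ≤ E * |a * (s + u)| :=
    mul_le_mul_of_nonneg_left (le_abs_self _) hE0.le
  have h6 : -|s * u| ≤ s * u := neg_abs_le _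
  have h7 : |s * u| ≤ E * |s * u| := by
    have := abs_nonneg (s * u)
    nlinarith
  have h8 : (s - E * a) * (u - E * a) + (E * b) ^ 2 = s * u - E * (a * (s + u)) + E * (E * c) := by
    rw [hc]; ring
  rw [h8]
  nlinarith

/-- the orbit converges to the attracting point -/
theorem CLH_lim (hBD2 : BD2_stmt) (hBD4 : BD4_stmt) (hBD7 : BD7_stmt) (hBD8 : BD8_stmt)
    (hPT1 : PT1_stmt) (hPT5 : PT5_stmt) {γ : SL(2, ℝ)} {p : Bd × Bd} (hγ : Attracts γ p)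
    (z : ℍ) (c d : Bd) (hq : Cyc c p.1 d) : ∃ n : ℕ, 0 < side (γ ^ n • z) c d := by
  obtain ⟨F, t, hF, ht, hg⟩ := (hBD8.1 γ p).1 hγ
  obtain ⟨b1, b2, b3, b4, b5, b6⟩ := hBD4
  obtain ⟨-, -, -, -, -, hinf, -, -, hex⟩ := hBD7
  have hx : F • (F⁻¹ • c) = c := smul_inv_smul F c
  have hy : F • (F⁻¹ • d) = d := smul_inv_smul F d
  have hcyc : Cyc (F⁻¹ • c) bInf (F⁻¹ • d) := by
    rw [← hBD2 F, hx, hy, hF.1]
    exact hq
  obtain ⟨hne1, hne2, hne3⟩ := b1 _ _ _ hcyc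
  obtain ⟨s, hs⟩ := (hex (F⁻¹ • c)).resolve_left hne1
  obtain ⟨u, hu⟩ := (hex (F⁻¹ • d)).resolve_left hne2.symm
  rw [hs, hu] at hcyc
  have hus : u < s := (hinf u s).1 (b2 _ _ _ hcyc)
  set z' : ℍ := F⁻¹ • z with hz'
  obtain ⟨n, hn⟩ := CLH_large z'.re z'.im s u t z'.im_pos ht
  refine ⟨n, ?_⟩
  have hpow : γ ^ n • z = (GM1_c F t) ^ n • z := by
    have h1 : PEq γ (GM1_c F t) := hg
    have h2 := GM1_PEq_zpow h1 (n : ℤ)
    rw [zpow_natCast, zpow_natCast] at h2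
    rcases h2 with h | h
    · rw [h]
    · rw [h, GM1_neg_smul]
  have hc : (GM1_c F t) ^ n = GM1_c F (n * t) := by
    have := GM1_c_zsmul F (n : ℤ) t
    rw [zpow_natCast] at this
    rw [← this]
    congr 1
    simp
  rw [hpow, hc]
  have hw : GM1_c F (n * t) • z = F • (Dm (n * t) • z') := by
    unfold GM1_c
    rw [mul_smul, mul_smul]
  rw [hw]
  conv_rhs => rw [← hx, ← hy]
  rw [(hPT1 F _ _ _).1, hs, hu]
  apply CLH_side
  have hcoe := hPT5.2.2 (n * t) z'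
  have hre : (Dm (n * t) • z' : ℍ).re = Real.exp (n * t) * z'.re := by
    have := congrArg Complex.re hcoe
    rw [Complex.re_ofReal_mul] at this
    exact this
  have him : (Dm (n * t) • z' : ℍ).im = Real.exp (n * t) * z'.im := by
    have := congrArg Complex.im hcoe
    rw [Complex.im_ofReal_mul] at this
    exact this
  rw [hre, him]
  exact mul_pos hn (by linarith)

theorem CLH_inv {Γ : Subgroup SL(2, ℝ)} (hPN5 : PN5_stmt) (S : LeafSystem Γ) {z₀ : ℍ}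
    {γ : SL(2, ℝ)} (hγ : γ ∈ Γ) (hs : S.SamePl z₀ (γ • z₀)) : S.SamePl z₀ (γ⁻¹ • z₀) := by
  obtain ⟨p1, p2, p3, p4, p5, p6, p7⟩ := hPN5 Γ S
  have h := p4 γ⁻¹ (inv_mem hγ) _ _ hs
  rw [inv_smul_smul] at h
  exact p1 _ _ h

theorem CLH_pow {Γ : Subgroup SL(2, ℝ)} (hPN5 : PN5_stmt) (S : LeafSystem Γ) {z₀ : ℍ}
    (h0 : S.OffPt z₀) {γ : SL(2, ℝ)} (hγ : γ ∈ Γ) (hs : S.SamePl z₀ (γ • z₀)) (n : ℕ) :
    S.SamePl z₀ (γ ^ n • z₀) := by
  obtain ⟨p1, p2, p3, p4, p5, p6, p7⟩ := hPN5 Γ S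
  induction n with
  | zero =>
    rw [pow_zero, one_smul]
    intro q _ hsep
    unfold SepPts at hsep
    nlinarith
  | succ n ih =>
    have h1 := p4 (γ ^ n) (pow_mem hγ n) _ _ hs
    rw [← mul_smul, ← pow_succ] at h1
    exact p2 _ _ _ h0 (p3 _ (pow_mem hγ n) _ h0) (p3 _ (pow_mem hγ (n + 1)) _ h0) ih h1

/-- sign of the side along the orbit -/
theorem CLH_sign {Γ : Subgroup SL(2, ℝ)} (hPN5 : PN5_stmt) (S : LeafSystem Γ) {z₀ : ℍ}
    (h0 : S.OffPt z₀) {γ : SL(2, ℝ)} (hγ : γ ∈ Γ) (hs : S.SamePl z₀ (γ • z₀)) (n : ℕ)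
    {q : Bd × Bd} (hq : q ∈ S.L) (hlt : side z₀ q.1 q.2 < 0) :
    side (γ ^ n • z₀) q.1 q.2 < 0 := by
  have h1 := CLH_pow hPN5 S h0 hγ hs n q hq
  have h2 := (hPN5 Γ S).2.2.1 (γ ^ n) (pow_mem hγ n) _ h0 q hq
  unfold SepPts at h1
  by_contra hcon
  push Not at hcon
  have h3 : 0 < side (γ ^ n • z₀) q.1 q.2 := lt_of_le_of_ne hcon (Ne.symm h2)
  exact h1 (mul_neg_of_neg_of_pos hlt h3)

/-- the fixed points lie in the closure of the side of the plaque -/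
theorem CLH_cl (hBD2 : BD2_stmt) (hBD4 : BD4_stmt) (hBD7 : BD7_stmt) (hBD8 : BD8_stmt)
    (hPT1 : PT1_stmt) (hPT5 : PT5_stmt) (hPN5 : PN5_stmt) {Γ : Subgroup SL(2, ℝ)}
    (S : LeafSystem Γ) {z₀ : ℍ} (h0 : S.OffPt z₀) {γ : SL(2, ℝ)} (hγ : γ ∈ Γ)
    (hs : S.SamePl z₀ (γ • z₀)) {p : Bd × Bd} (hp : Attracts γ p) {q : Bd × Bd} (hq : q ∈ S.L)
    (hlt : side z₀ q.1 q.2 < 0) : ¬ Cyc q.1 p.1 q.2 ∧ ¬ Cyc q.1 p.2 q.2 := by
  constructor
  · intro h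
    obtain ⟨n, hn⟩ := CLH_lim hBD2 hBD4 hBD7 hBD8 hPT1 hPT5 hp z₀ q.1 q.2 h
    have := CLH_sign hPN5 S h0 hγ hs n hq hlt
    linarith
  · intro h
    have hp' := hBD8.2.2.2.2.2.2.1 γ p hp
    obtain ⟨n, hn⟩ := CLH_lim hBD2 hBD4 hBD7 hBD8 hPT1 hPT5 hp' z₀ q.1 q.2 h
    have := CLH_sign hPN5 S h0 (inv_mem hγ) (CLH_inv hPN5 S hγ hs) n hq hlt
    linarith

/-- positions of linked pairs -/
theorem CLH_comb (hBD3 : BD3_stmt) (x y a b c d : Bd) (hxy : x ≠ y) (hl : Linked a b c d)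
    (ha : ¬ Cyc x a y) (hb : ¬ Cyc x b y) (hc : ¬ Cyc y c x) (hd : ¬ Cyc y d x) : False := by
  obtain ⟨φ, -, hinj, h2, h3, h4⟩ := hBD3 x
  have hax : a ≠ x → φ y ≤ φ a := fun h => by
    by_contra hcon
    push Not at hcon
    exact ha ((h2 a y h hxy.symm).2 hcon)
  have hbx : b ≠ x → φ y ≤ φ b := fun h => by
    by_contra hcon
    push Not at hcon
    exact hb ((h2 b y h hxy.symm).2 hcon)
  have hcx : c ≠ x → φ c ≤ φ y := fun h => by
    by_contra hcon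
    push Not at hcon
    refine hc ?_
    rw [(h4 y c).2.2.2.1]
    exact (h2 y c hxy.symm h).2 hcon
  have hdx : d ≠ x → φ d ≤ φ y := fun h => by
    by_contra hcon
    push Not at hcon
    refine hd ?_
    rw [(h4 y d).2.2.2.1]
    exact (h2 y d hxy.symm h).2 hcon
  -- symmetric statement
  have key : ∀ c d : Bd, (c ≠ x → φ c ≤ φ y) → (d ≠ x → φ d ≤ φ y) → Cyc a c b → Cyc a b d →
      False := by
    intro c d hcx hdx k1 k2
    by_cases ea : a = x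
    · subst ea
      obtain ⟨n1, n2, n3, -, -⟩ := h4 b c
      have hbne : b ≠ a := fun e => by subst e; exact (h4 c c).2.1 k1
      have hcne : c ≠ a := fun e => by subst e; exact (h4 b b).1 k1
      have hdne : d ≠ a := fun e => by subst e; exact (h4 b b).2.1 k2
      have e1 := (h2 c b hcne hbne).1 k1
      have e2 := (h2 b d hbne hdne).1 k2
      have := hbx hbne
      have := hdx hdne
      linarith
    · by_cases eb : b = x
      · subst eb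
        have hcne : c ≠ b := fun e => by subst e; exact (h4 a a).2.2.1 k1
        have hdne : d ≠ b := fun e => by subst e; exact (h4 a a).2.2.1 k2
        have e1 : Cyc b a c := ((h4 a c).2.2.2.1).1 k1
        have e2 : Cyc b d a := by
          have := (h4 a d).2.2.2.2
          have h5 := (h4 d a).2.2.2.2
          exact h5.1 k2
        have e3 := (h2 a c ea hcne).1 e1
        have := hax ea
        have := hcx hcne
        linarith
      · by_cases ec : c = x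
        · subst ec
          by_cases ed : d = c
          · subst ed
            -- Cyc a d b and Cyc a b d
            have e1 : Cyc d b a := (h4 b a).2.2.2.2.1 k1
            have e2 : Cyc d a b := (h4 a b).2.2.2.1.1 k2
            have f1 := (h2 b a eb ea).1 e1
            have f2 := (h2 a b ea eb).1 e2
            linarith
          · have e1 : Cyc c b a := (h4 b a).2.2.2.2.1 k1
            have f1 := (h2 b a eb ea).1 e1
            have f2 := (h3 a b d ea eb ed).1 k2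
            have g1 := hax ea
            have g2 := hbx eb
            have g3 := hdx ed
            rcases f2 with ⟨u1, u2⟩ | ⟨u1, u2⟩ | ⟨u1, u2⟩ <;> linarith
        · have f1 := (h3 a c b ea ec eb).1 k1
          have g1 := hax ea
          have g2 := hbx eb
          have g3 := hcx ec
          by_cases ed : d = x
          · subst ed
            have e2 : Cyc d a b := (h4 a b).2.2.2.1.1 k2
            have f2 := (h2 a b ea eb).1 e2
            rcases f1 with ⟨u1, u2⟩ | ⟨u1, u2⟩ | ⟨u1, u2⟩ <;> linarith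
          · have g4 := hdx ed
            have f2 := (h3 a b d ea eb ed).1 k2
            rcases f1 with ⟨u1, u2⟩ | ⟨u1, u2⟩ | ⟨u1, u2⟩ <;>
              rcases f2 with ⟨v1, v2⟩ | ⟨v1, v2⟩ | ⟨v1, v2⟩ <;> linarith
  rcases hl with ⟨k1, k2⟩ | ⟨k1, k2⟩
  · exact key c d hcx hdx k1 k2
  · exact key d c hdx hcx k1 k2

/-- the two ends of the axis are on different sides of a linked leaf -/
theorem CLH_sep (hBD2 : BD2_stmt) (hBD4 : BD4_stmt) (hBD7 : BD7_stmt) (hBD8 : BD8_stmt)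
    (hPT1 : PT1_stmt) (hPT5 : PT5_stmt) {γ : SL(2, ℝ)} {p : Bd × Bd} (hγ : Attracts γ p)
    (z : ℍ) (c d : Bd) (h1 : Cyc p.1 c p.2) (h2 : Cyc p.1 p.2 d) :
    ∃ n m : ℕ, 0 < side (γ ^ n • z) d c ∧ 0 < side ((γ⁻¹) ^ m • z) c d := by
  obtain ⟨b1, b2, b3, b4, b5, b6⟩ := id hBD4
  obtain ⟨h3, h4⟩ := b5 _ _ _ _ h1 h2
  have h5 : Cyc d p.1 c := b2 _ _ _ (b2 _ _ _ h3)
  obtain ⟨n, hn⟩ := CLH_lim hBD2 hBD4 hBD7 hBD8 hPT1 hPT5 hγ z d c h5
  obtain ⟨m, hm⟩ := CLH_lim hBD2 hBD4 hBD7 hBD8 hPT1 hPT5 (hBD8.2.2.2.2.2.2.1 γ p hγ) z c d h4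
  exact ⟨n, m, hn, hm⟩

/-- first part -/
theorem CLH_one (hBD2 : BD2_stmt) (hBD4 : BD4_stmt) (hBD7 : BD7_stmt) (hBD8 : BD8_stmt)
    (hPT1 : PT1_stmt) (hPT5 : PT5_stmt) (hPN5 : PN5_stmt) {Γ : Subgroup SL(2, ℝ)}
    (S : LeafSystem Γ) {z₀ : ℍ} (h0 : S.OffPt z₀) {γ : SL(2, ℝ)} (hγ : γ ∈ Γ)
    (hs : S.SamePl z₀ (γ • z₀)) {p : Bd × Bd} (hp : Attracts γ p) {q : Bd × Bd}
    (hq : q ∈ S.L) : ¬ Linked p.1 p.2 q.1 q.2 := by
  obtain ⟨p1, p2, p3, p4, p5, p6, p7⟩ := hPN5 Γ S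
  have hsame : ∀ n m : ℕ, S.SamePl (γ ^ n • z₀) ((γ⁻¹) ^ m • z₀) := fun n m =>
    p2 _ _ _ (p3 _ (pow_mem hγ n) _ h0) h0 (p3 _ (pow_mem (inv_mem hγ) m) _ h0)
      (p1 _ _ (CLH_pow hPN5 S h0 hγ hs n))
      (CLH_pow hPN5 S h0 (inv_mem hγ) (CLH_inv hPN5 S hγ hs) m)
  rintro (⟨k1, k2⟩ | ⟨k1, k2⟩)
  · obtain ⟨n, m, hn, hm⟩ := CLH_sep hBD2 hBD4 hBD7 hBD8 hPT1 hPT5 hp z₀ _ _ k1 k2
    have h1 := hsame n m q hq
    unfold SepPts at h1
    rw [(hPT1 1 (γ ^ n • z₀) q.1 q.2).2.2.2] at hn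
    exact h1 (mul_neg_of_neg_of_pos (by linarith) hm)
  · obtain ⟨n, m, hn, hm⟩ := CLH_sep hBD2 hBD4 hBD7 hBD8 hPT1 hPT5 hp z₀ _ _ k1 k2
    have h1 := hsame n m q hq
    unfold SepPts at h1
    rw [(hPT1 1 ((γ⁻¹) ^ m • z₀) q.1 q.2).2.2.2] at hm
    exact h1 (mul_neg_of_pos_of_neg hn (by linarith))

/-- second part -/
theorem CLH_two (hBD2 : BD2_stmt) (hBD4 : BD4_stmt) (hPT1 : PT1_stmt) (hPT3 : PT3_stmt)
    (hPT5 : PT5_stmt) (hGM5 : GM5_stmt) (hPN5 : PN5_stmt) {Γ : Subgroup SL(2, ℝ)}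
    (hΓ : IsClosedSurfaceGroup Γ) (S : LeafSystem Γ) {z₀ : ℍ} (h0 : S.OffPt z₀)
    {γ : SL(2, ℝ)} (hγ : γ ∈ Γ) (hs : S.SamePl z₀ (γ • z₀)) {p : Bd × Bd} (hp : Attracts γ p)
    (hfr : FrontPt p z₀) : S.Near p z₀ := by
  obtain ⟨b1, b2, b3, b4, b5, b6⟩ := id hBD4
  refine ⟨h0, hfr, fun q hq hqf hin => ?_⟩
  obtain ⟨z', hz'⟩ := hPT5.2.1 p.1 p.2 hp.1
  have hfix1 : ∀ n : ℕ, γ ^ n • p.1 = p.1 := fun n => by
    induction n with
    | zero => simp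
    | succ n ih => rw [pow_succ, mul_smul, hp.2.1, ih]
  have hfix2 : ∀ n : ℕ, γ ^ n • p.2 = p.2 := fun n => by
    induction n with
    | zero => simp
    | succ n ih => rw [pow_succ, mul_smul, hp.2.2.1, ih]
  have hins : ∀ n : ℕ, Inside p (γ ^ n • q.1, γ ^ n • q.2) := by
    intro n
    have k1 := (hBD2 (γ ^ n) q.1 p.1 p.2).2 hin.1
    have k2 := (hBD2 (γ ^ n) q.1 p.2 q.2).2 hin.2
    rw [hfix1, hfix2] at k1
    rw [hfix2] at k2
    exact ⟨k1, k2⟩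
  have hmem : ∀ n : ℕ, ((γ ^ n • q.1, γ ^ n • q.2) : Bd × Bd) ∈ S.L := fun n =>
    S.inv _ (pow_mem hγ n) q hq
  have hside : ∀ n : ℕ, side z₀ (γ ^ n • q.1) (γ ^ n • q.2) < 0 := by
    intro n
    have k1 : side (γ ^ n • z₀) (γ ^ n • q.1) (γ ^ n • q.2) < 0 :=
      (hPT1 (γ ^ n) z₀ q.1 q.2).2.1.2 hqf
    have k2 := CLH_pow hPN5 S h0 hγ hs n _ (hmem n)
    have k3 := h0 _ (hmem n)
    unfold SepPts at k2
    simp only at k2 k3
    by_contra hcon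
    push Not at hcon
    have k4 : 0 < side z₀ (γ ^ n • q.1) (γ ^ n • q.2) := lt_of_le_of_ne hcon (Ne.symm k3)
    exact k2 (mul_neg_of_pos_of_neg k4 k1)
  have hsep : ∀ n : ℕ, ((γ ^ n • q.1, γ ^ n • q.2) : Bd × Bd) ∈
      {r : Bd × Bd | r ∈ S.L ∧ SepPts r.1 r.2 z₀ z'} := by
    intro n
    refine ⟨hmem n, ?_⟩
    have k1 := hPT3.1 p (γ ^ n • q.1, γ ^ n • q.2) z' (hins n) hz'.ge
    exact mul_neg_of_neg_of_pos (hside n) k1
  have hcyc : ∀ n : ℕ, Cyc p.2 (γ ^ n • q.1) p.1 := fun n => b2 _ _ _ (b2 _ _ _ (hins n).1)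
  have hstep : ∀ n : ℕ, Cyc p.2 (γ ^ n • q.1) (γ ^ (n + 1) • q.1) := by
    intro n
    have := hp.2.2.2 _ (hcyc n)
    rwa [← mul_smul, ← pow_succ'] at this
  have hmono : ∀ m k : ℕ, Cyc p.2 (γ ^ m • q.1) (γ ^ (m + k + 1) • q.1) := by
    intro m k
    induction k with
    | zero => exact hstep m
    | succ k ih => exact (b5 _ _ _ _ ih (hstep (m + k + 1))).1
  have hinj : Function.Injective (fun n : ℕ => ((γ ^ n • q.1, γ ^ n • q.2) : Bd × Bd)) := by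
    intro m n hmn
    have h1 : γ ^ m • q.1 = γ ^ n • q.1 := congrArg Prod.fst hmn
    rcases lt_trichotomy m n with h | h | h
    · obtain ⟨k, rfl⟩ := Nat.exists_eq_add_of_lt h
      exact absurd h1 (b1 _ _ _ (hmono m k)).2.1
    · exact h
    · obtain ⟨k, rfl⟩ := Nat.exists_eq_add_of_lt h
      exact absurd h1.symm (b1 _ _ _ (hmono n k)).2.1
  exact Set.infinite_of_injective_forall_mem hinj hsep ((hGM5 Γ hΓ S).1 z₀ z')

theorem CLH (hBD2 : BD2_stmt) (hBD3 : BD3_stmt) (hBD4 : BD4_stmt) (hBD7 : BD7_stmt)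
    (hBD8 : BD8_stmt) (hPT1 : PT1_stmt) (hPT3 : PT3_stmt) (hPT5 : PT5_stmt) (hGM5 : GM5_stmt)
    (hPN5 : PN5_stmt) : CLH_stmt := by
  intro Γ hΓ S z₀ h0 γ hγ hs p hp
  refine ⟨fun q hq => CLH_one hBD2 hBD4 hBD7 hBD8 hPT1 hPT5 hPN5 S h0 hγ hs hp hq, fun hpL => ?_,
    fun h hh hlink => ?_⟩
  · have hne := h0 p hpL
    rcases lt_or_gt_of_ne hne with hlt | hgt
    · exact Or.inl (CLH_two hBD2 hBD4 hPT1 hPT3 hPT5 hGM5 hPN5 hΓ S h0 hγ hs hp hlt)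
    · refine Or.inr (CLH_two hBD2 hBD4 hPT1 hPT3 hPT5 hGM5 hPN5 hΓ S h0 (inv_mem hγ)
        (CLH_inv hPN5 S hγ hs) (hBD8.2.2.2.2.2.2.1 γ p hp) ?_)
      unfold FrontPt
      show side z₀ p.2 p.1 < 0
      rw [(hPT1 1 z₀ p.1 p.2).2.2.2]
      linarith
  · intro q hq hsep
    obtain ⟨p1, p2, p3, p4, p5, p6, p7⟩ := hPN5 Γ S
    have hxy : q.1 ≠ q.2 := (S.closed q hq).1
    -- data at `h • z₀`
    have h0' : S.OffPt (h • z₀) := p3 h hh _ h0
    have hγ' : h * γ * h⁻¹ ∈ Γ := mul_mem (mul_mem hh hγ) (inv_mem hh)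
    have hs' : S.SamePl (h • z₀) ((h * γ * h⁻¹) • (h • z₀)) := by
      have := p4 h hh _ _ hs
      rwa [show (h * γ * h⁻¹) • (h • z₀) = h • γ • z₀ by
        rw [← mul_smul, ← mul_smul]; congr 1; group]
    have hp' : Attracts (h * γ * h⁻¹) (h • p.1, h • p.2) := hBD8.2.2.2.2.2.1 γ h p hp
    have hswq : (q.2, q.1) ∈ S.L := S.swap q hq
    have hneg : ∀ z : ℍ, side z q.2 q.1 = -side z q.1 q.2 := fun z => (hPT1 1 z q.1 q.2).2.2.2
    unfold SepPts at hsep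
    rcases mul_neg_iff.1 hsep with ⟨k1, k2⟩ | ⟨k1, k2⟩
    · -- z₀ behind q, h z₀ in front
      obtain ⟨c1, c2⟩ := CLH_cl hBD2 hBD4 hBD7 hBD8 hPT1 hPT5 hPN5 S h0 hγ hs hp hswq
        (by show side z₀ q.2 q.1 < 0; rw [hneg]; linarith)
      obtain ⟨c3, c4⟩ := CLH_cl hBD2 hBD4 hBD7 hBD8 hPT1 hPT5 hPN5 S h0' hγ' hs' hp' hq k2
      exact CLH_comb hBD3 q.2 q.1 _ _ _ _ hxy.symm hlink c1 c2 c3 c4
    · obtain ⟨c1, c2⟩ := CLH_cl hBD2 hBD4 hBD7 hBD8 hPT1 hPT5 hPN5 S h0 hγ hs hp hq k1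
      obtain ⟨c3, c4⟩ := CLH_cl hBD2 hBD4 hBD7 hBD8 hPT1 hPT5 hPN5 S h0' hγ' hs' hp' hswq
        (by show side (h • z₀) q.2 q.1 < 0; rw [hneg]; linarith)
      exact CLH_comb hBD3 q.1 q.2 _ _ _ _ hxy hlink c1 c2 c3 c4

end AdSBend
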