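import Pool.Agent.helper69.AD.GS4
import Pool.Agent.helper30.AG.GM1

/-!
Module CLI of the project ag (helper81): nonperipheral elements of the stabiliser of a plaque.
-/

open scoped MatrixGroups LinearAlgebra.Projectivization
open Matrix UpperHalfPlane

namespace AdSBend

/-- the upper half plane is not compact -/
theorem CLI_noncompact (K : Set ℍ) (hK : IsCompact K) : ∃ z : ℍ, z ∉ K := by
  by_contra hcon
  push Not at hcon
  have hcont : Continuous (fun z : ℍ => z.im) := UpperHalfPlane.continuous_im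
  obtain ⟨M, hM⟩ := (hK.image hcont).bddAbove
  set m : ℝ := max M 0 + 1 with hm
  have hm0 : 0 < m := by have := le_max_right M 0; linarith
  have h1 := hM ⟨⟨⟨0, m⟩, hm0⟩, hcon _, rfl⟩
  have h2 : m ≤ M := h1
  have := le_max_left M 0
  linarith

/-- a closed surface group is not trivial -/
theorem CLI_nontrivial {Γ : Subgroup SL(2, ℝ)} (hΓ : IsClosedSurfaceGroup Γ) :
    ∃ γ ∈ Γ, ¬ PEq γ 1 := by
  by_contra hcon
  push Not at hcon
  obtain ⟨K, hK, hco⟩ := hΓ.cocompact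
  obtain ⟨z, hz⟩ := CLI_noncompact K hK
  obtain ⟨γ, hγ, hmem⟩ := hco z
  apply hz
  rcases hcon γ hγ with h | h
  · rw [h, one_smul] at hmem; exact hmem
  · rw [h, GM1_neg_smul, one_smul] at hmem; exact hmem

theorem CLI (hBD8 : BD8_stmt) (hGM1 : GM1_stmt)
    (hPN3 : PN3_stmt) (hPN4 : PN4_stmt) (hPN5 : PN5_stmt) (hCLF : CLF_stmt) (hCLG : CLG_stmt) :
    CLI_stmt := by
  intro Γ hΓ S z₀ h0
  by_cases hS : S.L.Nonempty
  · obtain ⟨p, hp, hnp⟩ := (hCLG Γ hΓ S).2 hS z₀ h0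
    obtain ⟨q, hpq⟩ := (hCLG Γ hΓ S).1 p hp
    have hq : q ∈ S.L := hpq.2.1
    have hnq : S.Near q z₀ := (hPN4 Γ hΓ S p hp q hq z₀ hnp).2 (Or.inr hpq)
    have ga := hGM1 Γ hΓ p (S.closed p hp)
    have gx := hGM1 Γ hΓ q (S.closed q hq)
    set a := gen Γ p
    set x := gen Γ q
    obtain ⟨p1, p2, p3, p4, p5, p6, p7⟩ := hPN5 Γ S
    have hsa : S.SamePl z₀ (a • z₀) := by
      have h1 := p6 a ga.1 p z₀ hnp
      rw [ga.2.1.2.1, ga.2.1.2.2.1] at h1
      exact (hPN3 Γ hΓ S p hp).2.2.1 _ _ hnp h1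
    have hsx : S.SamePl z₀ (x • z₀) := by
      have h1 := p6 x gx.1 q z₀ hnq
      rw [gx.2.1.2.1, gx.2.1.2.2.1] at h1
      exact (hPN3 Γ hΓ S q hq).2.2.1 _ _ hnq h1
    have hsx' : S.SamePl z₀ (x⁻¹ • z₀) := by
      have h1 := p4 x⁻¹ (inv_mem gx.1) _ _ hsx
      rw [inv_smul_smul] at h1
      exact p1 _ _ h1
    have hmem : a * x⁻¹ ∈ Γ := mul_mem ga.1 (inv_mem gx.1)
    have hsame : S.SamePl z₀ ((a * x⁻¹) • z₀) := by
      have h1 := p4 a ga.1 _ _ hsx'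
      rw [← mul_smul] at h1
      exact p2 _ _ _ h0 (p3 a ga.1 _ h0) (p3 _ hmem _ h0) hsa h1
    obtain ⟨s, hs, hlink⟩ := (hCLF a x p q ga.2.1 gx.2.1 hpq.2.2.1).2
    refine ⟨a * x⁻¹, hmem, hsame, ?_, fun p' hp' hL => ?_⟩
    · intro hone
      have h2 : (2 : ℝ) < |trc (a * x⁻¹)| := (hBD8.2.2.2.1 _).2 ⟨s, hs⟩
      rcases hone with h | h
      · rw [h] at h2
        unfold trc at h2
        norm_num at h2
      · rw [h] at h2
        unfold trc at h2
        norm_num at h2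
    · have heq : p' = s := hBD8.2.2.1 _ _ _ hp' hs
      rw [heq] at hL
      have h1 := S.inv a⁻¹ (inv_mem ga.1) s hL
      exact S.unlinked s hL _ h1 hlink
  · rw [Set.not_nonempty_iff_eq_empty] at hS
    obtain ⟨γ, hγ, hne⟩ := CLI_nontrivial hΓ
    refine ⟨γ, hγ, fun p hp => ?_, hne, fun p _ hp => ?_⟩
    · rw [hS] at hp; exact absurd hp (Set.notMem_empty _)
    · rw [hS] at hp; exact absurd hp (Set.notMem_empty _)

end AdSBend
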