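import Pool.Agent.helper69.AD.GS5

/-!
Module FB1 of the project ag (helper81): seam frames of an admissible representation.
-/

open scoped MatrixGroups LinearAlgebra.Projectivization
open Matrix UpperHalfPlane

namespace AdSBend

theorem FB1_refl (g : SL(2, ℝ)) : PEq g g := Or.inl rfl

theorem FB1_symm {g h : SL(2, ℝ)} (H : PEq g h) : PEq h g := by
  rcases H with H | H
  · exact Or.inl H.symm
  · exact Or.inr (by rw [H, neg_neg])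

theorem FB1_trans {g h k : SL(2, ℝ)} (H : PEq g h) (K : PEq h k) : PEq g k := by
  rcases H with H | H <;> rcases K with K | K
  · exact Or.inl (H.trans K)
  · exact Or.inr (H.trans K)
  · exact Or.inr (by rw [H, K])
  · exact Or.inl (by rw [H, K, neg_neg])

theorem FB1_mul {g h g' h' : SL(2, ℝ)} (H : PEq g h) (K : PEq g' h') : PEq (g * g') (h * h') := by
  rcases H with H | H <;> rcases K with K | K
  · exact Or.inl (by rw [H, K])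
  · exact Or.inr (by rw [H, K, mul_neg])
  · exact Or.inr (by rw [H, K, neg_mul])
  · exact Or.inl (by rw [H, K, neg_mul_neg])

theorem FB1_neg_inv (g : SL(2, ℝ)) : (-g)⁻¹ = -g⁻¹ := by
  rw [inv_eq_iff_mul_eq_one]
  rw [neg_mul_neg, mul_inv_cancel]

theorem FB1_inv {g h : SL(2, ℝ)} (H : PEq g h) : PEq g⁻¹ h⁻¹ := by
  rcases H with H | H
  · exact Or.inl (by rw [H])
  · exact Or.inr (by rw [H, FB1_neg_inv])

theorem FB1_trc_neg (g : SL(2, ℝ)) : trc (-g) = -trc g := by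
  unfold trc
  have h : (-g : SL(2, ℝ)).1 = -(g.1) := rfl
  rw [h, Matrix.neg_apply, Matrix.neg_apply]
  ring

theorem FB1_trc_abs {g h : SL(2, ℝ)} (H : PEq g h) : |trc g| = |trc h| := by
  rcases H with H | H
  · rw [H]
  · rw [H, FB1_trc_neg, abs_neg]

theorem FB1_trc_conj (g a : SL(2, ℝ)) : trc (g * a * g⁻¹) = trc a := by
  have h : ∀ x : SL(2, ℝ), trc x = x.1.trace := fun x => by
    rw [Matrix.trace_fin_two]; rfl
  rw [h, h]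
  have h1 : (g * a * g⁻¹).1 = g.1 * a.1 * (g⁻¹).1 := rfl
  have h2 : (g⁻¹).1 * g.1 = 1 := by
    have : (g⁻¹ * g).1 = (1 : SL(2, ℝ)).1 := by rw [inv_mul_cancel]
    exact this
  rw [h1, Matrix.trace_mul_comm, ← Matrix.mul_assoc, h2, Matrix.one_mul]

theorem FB1_len_neg (g : SL(2, ℝ)) : len (-g) = len g := by
  unfold len
  rw [FB1_trc_neg, abs_neg]

theorem FB1_len {g h : SL(2, ℝ)} (H : PEq g h) : len g = len h := by
  rcases H with H | H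
  · rw [H]
  · rw [H, FB1_len_neg]

/-- the value at the identity -/
theorem FB1_one {Γ : Subgroup SL(2, ℝ)} {r : SL(2, ℝ) → SL(2, ℝ)} (hr : IsPRep Γ r) :
    PEq (r 1) 1 := by
  have h := hr 1 (one_mem _) 1 (one_mem _) 1 (one_mem _) (Or.inl (one_mul 1).symm)
  rcases h with h | h
  · have h1 : r 1 * r 1 = r 1 * 1 := by rw [mul_one]; exact h.symm
    exact Or.inl (mul_left_cancel h1)
  · have h1 : r 1 * r 1 = r 1 * (-1) := by
      rw [mul_neg, mul_one]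
      have h2 : -(r 1) = -(-(r 1 * r 1)) := congrArg (fun x => -x) h
      rw [neg_neg] at h2
      exact h2.symm
    exact Or.inr (mul_left_cancel h1)

theorem FB1_mulr {Γ : Subgroup SL(2, ℝ)} {r : SL(2, ℝ) → SL(2, ℝ)} (hr : IsPRep Γ r)
    {g h : SL(2, ℝ)} (hg : g ∈ Γ) (hh : h ∈ Γ) : PEq (r (g * h)) (r g * r h) :=
  hr g hg h hh (g * h) (mul_mem hg hh) (Or.inl rfl)

theorem FB1_congr {Γ : Subgroup SL(2, ℝ)} {r : SL(2, ℝ) → SL(2, ℝ)} (hr : IsPRep Γ r)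
    {g h : SL(2, ℝ)} (hg : g ∈ Γ) (hh : h ∈ Γ) (H : PEq g h) : PEq (r g) (r h) := by
  have h1 := hr h hh 1 (one_mem _) g hg (by rw [mul_one]; exact H)
  have h2 := FB1_mul (FB1_refl (r h)) (FB1_one hr)
  rw [mul_one] at h2
  exact FB1_trans h1 h2

theorem FB1_invr {Γ : Subgroup SL(2, ℝ)} {r : SL(2, ℝ) → SL(2, ℝ)} (hr : IsPRep Γ r)
    {g : SL(2, ℝ)} (hg : g ∈ Γ) : PEq (r g⁻¹) (r g)⁻¹ := by
  have h1 := FB1_mulr hr hg (inv_mem hg)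
  rw [mul_inv_cancel] at h1
  have h2 : PEq (r g * r g⁻¹) 1 := FB1_trans (FB1_symm h1) (FB1_one hr)
  have h3 := FB1_mul (FB1_refl (r g)⁻¹) h2
  rw [← mul_assoc, inv_mul_cancel, one_mul, mul_one] at h3
  exact h3

theorem FB1_conjr {Γ : Subgroup SL(2, ℝ)} {r : SL(2, ℝ) → SL(2, ℝ)} (hr : IsPRep Γ r)
    {g h : SL(2, ℝ)} (hg : g ∈ Γ) (hh : h ∈ Γ) :
    PEq (r (g * h * g⁻¹)) (r g * r h * (r g)⁻¹) :=
  FB1_trans (FB1_mulr hr (mul_mem hg hh) (inv_mem hg))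
    (FB1_mul (FB1_mulr hr hg hh) (FB1_invr hr hg))

/-- generators of translated leaves -/
theorem FB1_genga (hGM1 : GM1_stmt) (hGM2 : GM2_stmt) {Γ : Subgroup SL(2, ℝ)}
    (hΓ : IsClosedSurfaceGroup Γ) (S : LeafSystem Γ) {r : SL(2, ℝ) → SL(2, ℝ)}
    (hr : IsPRep Γ r) {p : Bd × Bd} (hp : p ∈ S.L) {γ : SL(2, ℝ)} (hγ : γ ∈ Γ) :
    PEq (r (gen Γ (ga γ p))) (r γ * r (gen Γ p) * (r γ)⁻¹) := by
  have h1 : gen Γ p ∈ Γ := (hGM1 Γ hΓ p (S.closed p hp)).1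
  have h2 : gen Γ (ga γ p) ∈ Γ :=
    (hGM1 Γ hΓ (ga γ p) (S.closed _ (S.inv γ hγ p hp))).1
  exact FB1_trans (FB1_congr hr h2 (mul_mem (mul_mem hγ h1) (inv_mem hγ))
    ((hGM2 Γ hΓ).2.1 p (S.closed p hp) γ hγ)) (FB1_conjr hr hγ h1)

/-- generators of reversed leaves -/
theorem FB1_gensw (hGM1 : GM1_stmt) (hGM2 : GM2_stmt) {Γ : Subgroup SL(2, ℝ)}
    (hΓ : IsClosedSurfaceGroup Γ) (S : LeafSystem Γ) {r : SL(2, ℝ) → SL(2, ℝ)}
    (hr : IsPRep Γ r) {p : Bd × Bd} (hp : p ∈ S.L) :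
    PEq (r (gen Γ (sw p))) (r (gen Γ p))⁻¹ := by
  have h1 : gen Γ p ∈ Γ := (hGM1 Γ hΓ p (S.closed p hp)).1
  have h2 : gen Γ (sw p) ∈ Γ := (hGM1 Γ hΓ (sw p) (S.closed _ (S.swap p hp))).1
  exact FB1_trans (FB1_congr hr h2 (inv_mem h1)
    ((hGM2 Γ hΓ).2.2 p (S.closed p hp))) (FB1_invr hr h1)

/-- the relation of a hexagon -/
theorem FB1_hexrel (hGM1 : GM1_stmt) {Γ : Subgroup SL(2, ℝ)}
    (hΓ : IsClosedSurfaceGroup Γ) (S : LeafSystem Γ) {r : SL(2, ℝ) → SL(2, ℝ)}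
    (hr : IsPRep Γ r) {p q s : Bd × Bd} (h : S.Hex p q s) :
    PEq (r (gen Γ p) * r (gen Γ q) * r (gen Γ s)) 1 := by
  have hp : gen Γ p ∈ Γ := (hGM1 Γ hΓ p (S.closed p h.1.1)).1
  have hq : gen Γ q ∈ Γ := (hGM1 Γ hΓ q (S.closed q h.1.2.1)).1
  have hs : gen Γ s ∈ Γ := (hGM1 Γ hΓ s (S.closed s h.2.1.2.1)).1
  have h1 := FB1_mulr hr (mul_mem hp hq) hs
  have h2 := FB1_mul (FB1_mulr hr hp hq) (FB1_refl (r (gen Γ s)))
  have h3 := FB1_congr hr (mul_mem (mul_mem hp hq) hs) (one_mem _) h.2.2.2.2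
  exact FB1_trans (FB1_symm (FB1_trans h1 h2)) (FB1_trans h3 (FB1_one hr))

theorem FB1 (hFA1 : FA1_stmt) (hFA3 : FA3_stmt) (hGM1 : GM1_stmt) (hGM2 : GM2_stmt)
    (hHX1 : HX1_stmt) : FB1_stmt := by
  intro Γ hΓ S r hS
  obtain ⟨⟨hr, htr, hsgn⟩, hseam⟩ := hS
  obtain ⟨x1, -, -, -, -, -, -⟩ := hHX1 Γ hΓ S
  obtain ⟨f1, f2, f3, -, -, f6⟩ := hFA1
  have hleft : ∀ p u, S.Seam p u → p ∈ S.L ∧ u ∈ S.L := by
    rintro p u ⟨s, h | h⟩
    · exact ⟨h.1.1, h.1.2.1⟩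
    · exact ⟨h.1.2.1, h.1.1⟩
  have hhex : ∀ p q s F, S.Hex p q s → IsSeamFrame (r (gen Γ p)) (r (gen Γ q)) F →
      SeamD (r (gen Γ p)) (r (gen Γ q)) F
        (sd (len (r (gen Γ p))) (len (r (gen Γ q))) (len (r (gen Γ s)))) ∧
      SeamD (r (gen Γ q)) (r (gen Γ p))
        (F * Em (sd (len (r (gen Γ p))) (len (r (gen Γ q))) (len (r (gen Γ s)))) * Rm)
        (sd (len (r (gen Γ p))) (len (r (gen Γ q))) (len (r (gen Γ s)))) ∧
      IsSeamFrame (r (gen Γ p)) (r (gen Γ s)) (F * Dm (len (r (gen Γ p)) / 2)) := by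
    intro p q s F h hF
    have h3 := hFA3 (r (gen Γ p)) (r (gen Γ q)) (r (gen Γ s)) F (htr p h.1.1)
      (htr q h.1.2.1) (htr s h.2.1.2.1) (FB1_hexrel hGM1 hΓ S hr h) (hsgn p q s h) hF
    exact ⟨h3.2.2.2.2.1, h3.2.2.2.2.2.1, h3.2.2.2.2.2.2.1⟩
  refine ⟨?_, ?_, ?_, hhex, ?_⟩
  · rintro p u ⟨s, h | h⟩
    · exact hseam p u s h
    · have h1 := x1 u p s h
      obtain ⟨F, hF⟩ := hseam p s u h1
      exact ⟨_, (hhex p s u F h1 hF).2.2⟩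
  · intro p u F F' h hF hF'
    exact f1 _ _ F F' (htr p (hleft p u h).1) (htr u (hleft p u h).2) hF hF'
  · intro γ hγ p u F h hF
    obtain ⟨hp, hu⟩ := hleft p u h
    have h1 := f3 _ _ F (r γ) hF
    refine f2 _ _ _ _ _ _ ?_ ?_ (FB1_genga hGM1 hGM2 hΓ S hr hp hγ)
      (FB1_genga hGM1 hGM2 hΓ S hr hu hγ) (FB1_refl _) h1
    · rw [FB1_trc_conj]; exact htr p hp
    · rw [FB1_trc_conj]; exact htr u hu
  · intro p hp
    obtain ⟨-, -, -, -, -, -, h0⟩ := f6 (r (gen Γ p)) 1 (htr p hp)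
    refine ⟨h0, ?_, ?_⟩
    · rw [FB1_len (FB1_gensw hGM1 hGM2 hΓ S hr hp)]
      exact (f6 (r (gen Γ p)) 1 (htr p hp)).2.1
    · intro γ hγ
      rw [FB1_len (FB1_genga hGM1 hGM2 hΓ S hr hp hγ)]
      exact (f6 (r (gen Γ p)) (r γ) (htr p hp)).1

end AdSBend
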