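import Pool.Agent.helper69.AD.GS5

/-!
Module FC5 of the project ag (helper81): the trace of a cyclic product as a sum over sign
sequences.
-/

open scoped MatrixGroups LinearAlgebra.Projectivization
open Matrix UpperHalfPlane
open Pool.Agent.helper73.AD (PS Arc Word sg AData Family PreFamily Cone bs)

namespace AdSBend

noncomputable section

/-- entry of one step of the product -/
def FC5_P (R : ℤ → SL(2, ℝ)) (t : ℤ → ℝ) (k : ℤ) (s s' : Bool) : ℝ :=
  (R k).1 (bi s) (bi s') * Real.exp (bs s' * t (k + 1) / 2)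

theorem FC5_Dm (t : ℝ) (s s' : Bool) :
    (Dm t).1 (bi s) (bi s') = if s = s' then Real.exp (bs s' * t / 2) else 0 := by
  cases s <;> cases s' <;> simp [Dm, bi, bs, neg_div]

theorem FC5_mul (X Y : SL(2, ℝ)) (a b : Bool) :
    (X * Y).1 (bi a) (bi b) = ∑ c : Bool, X.1 (bi a) (bi c) * Y.1 (bi c) (bi b) := by
  have h : (X * Y).1 = X.1 * Y.1 := rfl
  rw [h, Matrix.mul_apply, Fin.sum_univ_two, Fintype.sum_bool]
  rfl

theorem FC5_step (R : ℤ → SL(2, ℝ)) (t : ℤ → ℝ) (m : ℤ) (n : ℕ) (a b : Bool) :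
    (cp R t m (n + 1)).1 (bi a) (bi b) =
      ∑ c : Bool, (cp R t m n).1 (bi a) (bi c) * FC5_P R t (m + n) c b := by
  have h : cp R t m (n + 1) = cp R t m n * (R (m + n) * Dm (t (m + n + 1))) := rfl
  rw [h, FC5_mul]
  refine Finset.sum_congr rfl fun c _ => ?_
  rw [FC5_mul]
  congr 1
  unfold FC5_P
  simp only [FC5_Dm]
  rw [Finset.sum_eq_single b]
  · simp
  · intro d _ hd
    rw [if_neg hd, mul_zero]
  · intro h
    exact absurd (Finset.mem_univ b) h

/-- path sums with a weight depending on the first and the last index -/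
theorem FC5_path (R : ℤ → SL(2, ℝ)) (t : ℤ → ℝ) (m : ℤ) : ∀ (n : ℕ) (c : Bool → Bool → ℝ),
    ∑ a : Bool, ∑ b : Bool, c a b * (cp R t m n).1 (bi a) (bi b) =
      ∑ τ : Fin (n + 1) → Bool, c (τ 0) (τ (Fin.last n)) *
        ∏ i : Fin n, FC5_P R t (m + (i.val : ℤ)) (τ i.castSucc) (τ i.succ) := by
  intro n
  induction n with
  | zero =>
    intro c
    have h : ∀ a b : Bool, (cp R t m 0).1 (bi a) (bi b) = if a = b then 1 else 0 := by
      intro a b
      have : cp R t m 0 = 1 := rfl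
      rw [this]
      cases a <;> cases b <;> simp [bi]
    simp only [h]
    rw [← (Equiv.funUnique (Fin 1) Bool).symm.sum_comp]
    simp
  | succ n ih =>
    intro c
    rw [← (Fin.snocEquiv (fun _ : Fin (n + 2) => Bool)).sum_comp, Fintype.sum_prod_type]
    have h1 : ∀ (b : Bool) (τ : Fin (n + 1) → Bool),
        c ((Fin.snocEquiv (fun _ : Fin (n + 2) => Bool)) (b, τ) 0)
          ((Fin.snocEquiv (fun _ : Fin (n + 2) => Bool)) (b, τ) (Fin.last (n + 1))) *
        ∏ i : Fin (n + 1), FC5_P R t (m + (i.val : ℤ))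
          ((Fin.snocEquiv (fun _ : Fin (n + 2) => Bool)) (b, τ) i.castSucc)
          ((Fin.snocEquiv (fun _ : Fin (n + 2) => Bool)) (b, τ) i.succ) =
        (c (τ 0) b * FC5_P R t (m + n) (τ (Fin.last n)) b) *
          ∏ i : Fin n, FC5_P R t (m + (i.val : ℤ)) (τ i.castSucc) (τ i.succ) := by
      intro b τ
      have e0 : ∀ i : Fin (n + 1),
          (Fin.snocEquiv (fun _ : Fin (n + 2) => Bool)) (b, τ) i.castSucc = τ i := fun i =>
        Fin.snoc_castSucc (α := fun _ : Fin (n + 2) => Bool) b τ i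
      have e1 : (Fin.snocEquiv (fun _ : Fin (n + 2) => Bool)) (b, τ) (Fin.last (n + 1)) = b :=
        Fin.snoc_last (α := fun _ : Fin (n + 2) => Bool) b τ
      rw [Fin.prod_univ_castSucc, e1]
      have e2 : (Fin.snocEquiv (fun _ : Fin (n + 2) => Bool)) (b, τ) 0 = τ 0 := e0 0
      rw [e2, e0 (Fin.last n)]
      have e3 : (Fin.last n).succ = Fin.last (n + 1) := rfl
      rw [e3, e1]
      have e4 : ∀ i : Fin n, (Fin.snocEquiv (fun _ : Fin (n + 2) => Bool)) (b, τ)
          (i.castSucc.succ) = τ i.succ := by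
        intro i
        have : i.castSucc.succ = i.succ.castSucc := rfl
        rw [this, e0]
      simp only [e0, e4, Fin.val_castSucc, Fin.val_last]
      ring
    simp only [h1]
    conv_rhs => rw [Finset.sum_comm]
    have h2 := ih (fun a d => ∑ b : Bool, c a b * FC5_P R t (m + n) d b)
    simp only [Finset.sum_mul] at h2
    rw [← h2]
    refine Finset.sum_congr rfl fun a _ => ?_
    simp only [FC5_step, Finset.mul_sum]
    rw [Finset.sum_comm]
    refine Finset.sum_congr rfl fun d _ => Finset.sum_congr rfl fun b _ => ?_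
    ring

/-- the cyclic form -/
theorem FC5_cyc (R : ℤ → SL(2, ℝ)) (t : ℤ → ℝ) (m : ℤ) (n : ℕ) (f : Bool → ℝ) :
    ∑ a : Bool, f a * (cp R t m (n + 1)).1 (bi a) (bi a) =
      ∑ τ : Fin (n + 1) → Bool, f (τ 0) *
        ∏ i : Fin (n + 1), FC5_P R t (m + (i.val : ℤ)) (τ i) (τ (i + 1)) := by
  have h := FC5_path R t m n (fun a c => f a * FC5_P R t (m + n) c a)
  have h1 : ∑ a : Bool, f a * (cp R t m (n + 1)).1 (bi a) (bi a) =
      ∑ a : Bool, ∑ b : Bool, f a * FC5_P R t (m + n) b a * (cp R t m n).1 (bi a) (bi b) := by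
    refine Finset.sum_congr rfl fun a _ => ?_
    rw [FC5_step, Finset.mul_sum]
    refine Finset.sum_congr rfl fun b _ => ?_
    ring
  rw [h1, h]
  refine Finset.sum_congr rfl fun τ _ => ?_
  rw [Fin.prod_univ_castSucc]
  have e1 : Fin.last n + 1 = 0 := Fin.last_add_one n
  rw [e1]
  have e2 : ∀ i : Fin n, i.castSucc + 1 = i.succ := fun i => Fin.coeSucc_eq_succ
  simp only [e2, Fin.val_castSucc, Fin.val_last]
  ring

theorem FC5_per {α : Type*} (u : ℤ → α) (n : ℕ) (h : ∀ i, u (i + n + 1) = u i) (i : ℤ) :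
    u i = u (i % ((n : ℤ) + 1)) := by
  have hp : Function.Periodic u ((n : ℤ) + 1) := by
    intro x
    rw [← add_assoc]
    exact h x
  have h1 := hp.int_mul (i / ((n : ℤ) + 1)) (i % ((n : ℤ) + 1))
  rw [← h1]
  congr 1
  have := Int.emod_add_mul_ediv i ((n : ℤ) + 1)
  push_cast
  linarith [mul_comm (i / ((n : ℤ) + 1)) ((n : ℤ) + 1)]

theorem FC5_term {J : Type} (w : Word J) (z : PS J) (R : ℤ → SL(2, ℝ)) (t : ℤ → ℝ)
    (ht : ∀ i, t (i + w.n + 1) = t i)
    (hw : ∀ i : Fin (w.n + 1), t (i.val : ℤ) = w.t i z ∧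
      ∀ s s', (R (i.val : ℤ)).1 (bi s) (bi s') = Real.exp ((w.A i).g s s' z.1))
    (σ : Fin (w.n + 1) → Bool) :
    ∏ i : Fin (w.n + 1), FC5_P R t (i.val : ℤ) (σ i) (σ (i + 1)) = w.W σ z := by
  have h1 : ∀ i : Fin (w.n + 1), t ((i.val : ℤ) + 1) = w.t (i + 1) z := by
    intro i
    rw [← (hw (i + 1)).1]
    by_cases hi : i = Fin.last w.n
    · subst hi
      rw [Fin.last_add_one]
      have := ht 0
      rw [zero_add] at this
      simpa using this
    · rw [Fin.val_add_one_of_lt (Fin.lt_last_iff_ne_last.2 hi)]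
      push_cast
      rfl
  have h2 : ∀ i : Fin (w.n + 1), FC5_P R t (i.val : ℤ) (σ i) (σ (i + 1)) =
      Real.exp ((w.A i).g (σ i) (σ (i + 1)) z.1) *
        Real.exp (bs (σ (i + 1)) * w.t (i + 1) z / 2) := by
    intro i
    unfold FC5_P
    rw [(hw i).2, h1]
  simp only [h2]
  rw [Finset.prod_mul_distrib]
  have h3 : ∏ i : Fin (w.n + 1), Real.exp (bs (σ (i + 1)) * w.t (i + 1) z / 2) =
      ∏ i : Fin (w.n + 1), Real.exp (bs (σ i) * w.t i z / 2) :=
    Fintype.prod_equiv (Equiv.addRight (1 : Fin (w.n + 1)))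
      (fun i => Real.exp (bs (σ (i + 1)) * w.t (i + 1) z / 2))
      (fun i => Real.exp (bs (σ i) * w.t i z / 2)) (fun i => rfl)
  rw [h3, ← Finset.prod_mul_distrib]
  unfold Word.W Word.L
  rw [Real.exp_sum]
  refine Finset.prod_congr rfl fun i _ => ?_
  rw [← Real.exp_add, add_comm]

theorem FC5_main {J : Type} (w : Word J) (z : PS J) (R : ℤ → SL(2, ℝ)) (t : ℤ → ℝ)
    (hR : ∀ i, R (i + w.n + 1) = R i) (ht : ∀ i, t (i + w.n + 1) = t i)
    (hw : ∀ i : Fin (w.n + 1), t (i.val : ℤ) = w.t i z ∧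
      ∀ s s', (R (i.val : ℤ)).1 (bi s) (bi s') = Real.exp ((w.A i).g s s' z.1))
    (m : ℤ) (i₀ : Fin (w.n + 1)) (hm : m % ((w.n : ℤ) + 1) = (i₀.val : ℤ)) (f : Bool → ℝ) :
    ∑ a : Bool, f a * (cp R t m (w.n + 1)).1 (bi a) (bi a) =
      ∑ σ : Fin (w.n + 1) → Bool, f (σ i₀) * w.W σ z := by
  rw [FC5_cyc]
  have hP : ∀ k, FC5_P R t (k + w.n + 1) = FC5_P R t k := by
    intro k
    funext s s'
    unfold FC5_P
    rw [hR, show k + (w.n : ℤ) + 1 + 1 = (k + 1) + w.n + 1 by ring, ht]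
  have h1 : ∀ i : Fin (w.n + 1), FC5_P R t (m + (i.val : ℤ)) =
      FC5_P R t ((i₀ + i : Fin (w.n + 1)).val : ℤ) := by
    intro i
    rw [FC5_per (FC5_P R t) w.n hP (m + (i.val : ℤ))]
    congr 1
    rw [Int.add_emod, hm, Fin.val_add]
    push_cast
    rw [Int.add_emod_emod]
  simp only [h1]
  conv_rhs => rw [← (Equiv.arrowCongr (Equiv.addLeft i₀) (Equiv.refl Bool)).sum_comp]
  refine Finset.sum_congr rfl fun τ _ => ?_
  have h2 : ∀ i : Fin (w.n + 1),
      (Equiv.arrowCongr (Equiv.addLeft i₀) (Equiv.refl Bool)) τ (i₀ + i) = τ i := by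
    intro i
    simp [Equiv.arrowCongr]
  have h3 := FC5_term w z R t ht hw
    ((Equiv.arrowCongr (Equiv.addLeft i₀) (Equiv.refl Bool)) τ)
  have h4 := h2 0
  rw [add_zero] at h4
  rw [← h3, h4]
  congr 1
  refine Fintype.prod_equiv (Equiv.addLeft i₀) _ _ fun i => ?_
  rw [Equiv.coe_addLeft, h2, add_assoc, h2]

theorem FC5 : FC5_stmt := by
  intro J w z R t hR ht hw
  refine ⟨fun m => ?_, fun i => ?_⟩
  · have hpos : (0 : ℤ) < (w.n : ℤ) + 1 := by positivity
    have h0 : 0 ≤ m % ((w.n : ℤ) + 1) := Int.emod_nonneg _ hpos.ne'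
    have h1 : m % ((w.n : ℤ) + 1) < (w.n : ℤ) + 1 := Int.emod_lt_of_pos _ hpos
    obtain ⟨k, hk⟩ := Int.eq_ofNat_of_zero_le h0
    have hk' : k < w.n + 1 := by omega
    have h2 := FC5_main w z R t hR ht hw m ⟨k, hk'⟩ hk (fun _ => 1)
    simp only [one_mul] at h2
    rw [Fintype.sum_bool] at h2
    unfold trc Word.F
    rw [← h2]
    rfl
  · have h2 := FC5_main w z R t hR ht hw (i.val : ℤ) i
      (Int.emod_eq_of_lt (by positivity) (by have := i.isLt; omega)) bs
    rw [← h2, Fintype.sum_bool, Matrix.trace_fin_two, Matrix.mul_apply, Matrix.mul_apply,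
      Fin.sum_univ_two, Fin.sum_univ_two]
    simp [hM, bs, bi]

end

end AdSBend
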